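import Pool.Agent.N869.QT.G.Stm

/-!
Project QT (helper869): averages over colourings of products over one colour (helper124).
-/

set_option autoImplicit false

open scoped Classical

namespace Pool.Agent.N124.QT

open Finset
open Pool.Agent.N869.QT.G (pr exC)

variable {R Q : Type} [Fintype Q] [Nonempty Q]

/-- the average over the colourings of `S` -/
noncomputable def av (S : Finset R) (F : (R → Q) → ℝ) : ℝ :=
  (∑ c : S → Q, F (exC S c)) / (Fintype.card Q : ℝ) ^ S.card

lemma card_pos' : (0 : ℝ) < Fintype.card Q := by exact_mod_cast Fintype.card_pos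

lemma pr_le_av (S : Finset R) (P : (R → Q) → Prop) (F : (R → Q) → ℝ) (h0 : ∀ γ, 0 ≤ F γ)
    (h1 : ∀ γ, P γ → 1 ≤ F γ) : pr S P ≤ av S F := by
  unfold pr av
  have hr := card_pos' (Q := Q)
  apply div_le_div_of_nonneg_right _ (by positivity)
  rw [card_eq_sum_ones, Nat.cast_sum, sum_filter]
  apply sum_le_sum
  intro c _
  split_ifs with h
  · rw [Nat.cast_one]; exact h1 _ h
  · exact h0 _

lemma pr_nonneg (S : Finset R) (P : (R → Q) → Prop) : 0 ≤ pr S P := by
  unfold pr
  have hr := card_pos' (Q := Q)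
  positivity

lemma av_sum {ι : Type*} (S : Finset R) (s : Finset ι) (F : ι → (R → Q) → ℝ) :
    av S (fun γ => ∑ i ∈ s, F i γ) = ∑ i ∈ s, av S (F i) := by
  unfold av
  rw [sum_comm, sum_div]

lemma av_add (S : Finset R) (F G : (R → Q) → ℝ) :
    av S (fun γ => F γ + G γ) = av S F + av S G := by
  unfold av
  rw [sum_add_distrib, add_div]

lemma av_mul (S : Finset R) (a : ℝ) (F : (R → Q) → ℝ) :
    av S (fun γ => a * F γ) = a * av S F := by
  unfold av
  rw [← mul_sum, mul_div_assoc]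

/-- the average of a product over one colour -/
theorem av_prod (S T : Finset R) (hT : T ⊆ S) (q : Q) (g : R → ℝ) :
    av S (fun γ => ∏ π ∈ T.filter (fun π => γ π = q), g π) =
      ∏ π ∈ T, (1 - (1 - g π) / Fintype.card Q) := by
  have hr := card_pos' (Q := Q)
  have h1 : ∀ c : S → Q, ∏ π ∈ T.filter (fun π => exC S c π = q), g π =
      ∏ s : S, (if s.1 ∈ T ∧ c s = q then g s.1 else 1) := by
    intro c
    have e1 : ∏ s : S, (if s.1 ∈ T ∧ c s = q then g s.1 else 1) =
        ∏ s : S, (if s.1 ∈ T ∧ exC S c s.1 = q then g s.1 else 1) := by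
      apply prod_congr rfl
      intro s _
      have : exC S c s.1 = c s := by
        unfold exC
        rw [dif_pos s.2]
      rw [this]
    rw [e1, prod_coe_sort S (fun π => if π ∈ T ∧ exC S c π = q then g π else 1), ← prod_filter]
    apply prod_congr _ (fun _ _ => rfl)
    ext π
    simp only [mem_filter]
    constructor
    · rintro ⟨h2, h3⟩; exact ⟨hT h2, h2, h3⟩
    · rintro ⟨_, h2, h3⟩; exact ⟨h2, h3⟩
  unfold av
  rw [sum_congr rfl fun c _ => h1 c]
  have h2 := Finset.prod_univ_sum (fun _ : S => (univ : Finset Q))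
    (fun (s : S) (q' : Q) => if s.1 ∈ T ∧ q' = q then g s.1 else (1 : ℝ))
  rw [Fintype.piFinset_univ] at h2
  rw [← h2]
  have h3 : ∀ s : S, ∑ q' : Q, (if s.1 ∈ T ∧ q' = q then g s.1 else (1 : ℝ)) =
      Fintype.card Q * (if s.1 ∈ T then 1 - (1 - g s.1) / Fintype.card Q else 1) := by
    intro s
    by_cases hs : s.1 ∈ T
    · simp only [hs, true_and, if_true]
      have e1 : ∀ q' : Q, (if q' = q then g s.1 else (1 : ℝ)) = 1 + (if q' = q then g s.1 - 1 else 0) := by
        intro q'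
        split_ifs <;> ring
      rw [sum_congr rfl fun q' _ => e1 q', sum_add_distrib, sum_ite_eq' univ q, if_pos (mem_univ q),
        sum_const, card_univ, nsmul_eq_mul]
      field_simp
      ring
    · simp only [hs, false_and, if_false]
      rw [sum_const, card_univ, nsmul_eq_mul]
  rw [prod_congr rfl fun s _ => h3 s, prod_mul_distrib, prod_const, card_univ, Fintype.card_coe,
    mul_div_cancel_left₀ _ (by positivity),
    prod_coe_sort S (fun π => if π ∈ T then 1 - (1 - g π) / Fintype.card Q else 1), ← prod_filter]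
  apply prod_congr _ (fun _ _ => rfl)
  ext π
  simp only [mem_filter]
  exact ⟨fun h => h.2, fun h => ⟨hT h, h⟩⟩

/-- comparison of the factors -/
lemma h_le {r : ℝ} (hr : 1 ≤ r) {g : ℝ} (h1 : 1 / 3 ≤ g) (h2 : g ≤ 1) :
    1 - (1 - g) / r ≤ g ^ (1 / (3 * r)) := by
  have hg : 0 < g := by linarith
  have hr0 : 0 < r := by linarith
  have e1 : 1 - (1 - g) / r ≤ Real.exp (-((1 - g) / r)) := by
    have := Real.add_one_le_exp (-((1 - g) / r))
    linarith
  refine e1.trans ?_
  rw [Real.rpow_def_of_pos hg]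
  apply Real.exp_le_exp.2
  have e2 : 1 - 1 / g ≤ Real.log g := by
    have := Real.one_sub_inv_le_log_of_pos hg
    rwa [one_div]
  have e3 : -(3 * (1 - g)) ≤ 1 - 1 / g := by
    have : (1 - 1 / g) + 3 * (1 - g) = (1 - g) * (3 * g - 1) / g := by
      field_simp
      ring
    have h4 : 0 ≤ (1 - g) * (3 * g - 1) / g := by
      apply div_nonneg _ hg.le
      apply mul_nonneg <;> linarith
    linarith
  have e4 : -(3 * (1 - g)) ≤ Real.log g := e3.trans e2
  calc -((1 - g) / r) = -(3 * (1 - g)) * (1 / (3 * r)) := by field_simp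
    _ ≤ Real.log g * (1 / (3 * r)) := mul_le_mul_of_nonneg_right e4 (by positivity)

/-- the sum of powers with exponent `θ ≤ 1` -/
lemma sum_rpow_le {ι : Type*} (s : Finset ι) (f : ι → ℝ) (hf : ∀ i ∈ s, 0 ≤ f i) {θ : ℝ} (h0 : 0 < θ)
    (h1 : θ ≤ 1) {N A : ℝ} (hN : (s.card : ℝ) ≤ N) (hA : ∑ i ∈ s, f i ≤ A) :
    ∑ i ∈ s, f i ^ θ ≤ N ^ (1 - θ) * A ^ θ := by
  have hA0 : 0 ≤ A := (sum_nonneg hf).trans hA
  rcases s.eq_empty_or_nonempty with hs | hs
  · subst hs
    rw [sum_empty]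
    rw [card_empty, Nat.cast_zero] at hN
    positivity
  have hn : (0 : ℝ) < s.card := by exact_mod_cast hs.card_pos
  have hN0 : 0 < N := lt_of_lt_of_le hn hN
  have h2 := Real.rpow_arith_mean_le_arith_mean_rpow s (fun _ => 1 / (s.card : ℝ)) (fun i => f i ^ θ)
    (fun _ _ => by positivity) (by rw [sum_const, nsmul_eq_mul]; field_simp)
    (fun i hi => Real.rpow_nonneg (hf i hi) _) (p := 1 / θ) (by rw [le_div_iff₀ h0]; linarith)
  have h3 : ∀ i ∈ s, (f i ^ θ) ^ (1 / θ) = f i := by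
    intro i hi
    rw [← Real.rpow_mul (hf i hi), mul_one_div_cancel h0.ne', Real.rpow_one]
  have h4 : ∑ i ∈ s, 1 / (s.card : ℝ) * (f i ^ θ) ^ (1 / θ) = (∑ i ∈ s, f i) / s.card := by
    rw [sum_div]
    apply sum_congr rfl
    intro i hi
    rw [h3 i hi]
    ring
  rw [h4, ← mul_sum] at h2
  have h5 : 0 ≤ 1 / (s.card : ℝ) * ∑ i ∈ s, f i ^ θ :=
    mul_nonneg (by positivity) (sum_nonneg fun i hi => Real.rpow_nonneg (hf i hi) _)
  have h6 := Real.rpow_le_rpow (Real.rpow_nonneg h5 _) h2 h0.le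
  rw [← Real.rpow_mul h5, one_div_mul_cancel h0.ne', Real.rpow_one] at h6
  have h7 : ∑ i ∈ s, f i ^ θ ≤ s.card * ((∑ i ∈ s, f i) / s.card) ^ θ := by
    calc ∑ i ∈ s, f i ^ θ = s.card * (1 / (s.card : ℝ) * ∑ i ∈ s, f i ^ θ) := by field_simp
      _ ≤ _ := mul_le_mul_of_nonneg_left h6 hn.le
  refine h7.trans ?_
  rw [Real.div_rpow (sum_nonneg hf) hn.le]
  have h8 : (s.card : ℝ) * ((∑ i ∈ s, f i) ^ θ / (s.card : ℝ) ^ θ) =
      (s.card : ℝ) ^ (1 - θ) * (∑ i ∈ s, f i) ^ θ := by
    rw [Real.rpow_sub hn, Real.rpow_one]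
    ring
  rw [h8]
  exact mul_le_mul (Real.rpow_le_rpow hn.le hN (by linarith))
    (Real.rpow_le_rpow (sum_nonneg hf) hA h0.le) (Real.rpow_nonneg (sum_nonneg hf) _)
    (Real.rpow_nonneg hN0.le _)

end Pool.Agent.N124.QT
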