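import Pool.Agent.R426.QK.FB
import Pool.Agent.R426.QK.Jsum
import Pool.Agent.N869.QT.Stm
import Pool.Agent.N124.QT.FBA

/-!
Project QT (helper869): degenerate labels are rare for random colourings (helper124), after
`Pool/Agent/R426/QK/FB.lean` (helper806).
-/

set_option autoImplicit false

open scoped Classical

namespace Pool.Agent.N124.QT

open Finset Filter
open Pool.Agent.R426.QK Pool.Agent.R426.QK.FB
open Pool.Agent.Y698 (RR)
open Pool.Agent.Y703.CX (eL zz kk)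
open Pool.Agent.Y495.CX.Few (eL_tendsto log_small zz_ge loglog_zz rpow_eq)
open Pool.Agent.N869.QT (SA NdC S_FBC)
open Pool.Agent.N869.QT.G (pr)

lemma mem_SA {X : ℕ} {S : Finset RR} (h : S ∈ SA X) :
    (∀ π ∈ S, Pq π) ∧ ∏ π ∈ S, nrm π ≤ X := by
  unfold SA at h
  rw [mem_filter, mem_powerset] at h
  exact ⟨fun π hπ => (mem_QB.1 (h.1 hπ)).2, h.2⟩

/-- the general estimate, with weights -/
theorem genW (hM : S_MERT) (a b κ : ℝ) (c : ℕ) (ha : 0 ≤ a) (hb : 0 ≤ b) (hκ : 0 < κ) (hκ1 : κ ≤ 1)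
    (w : ℕ → Finset RR → ℝ)
    (hcount : ∀ (X : ℕ) (S₀ : Finset RR), (∀ u ∈ S₀, Pq u ∧ nrm u ≤ zz X) → S₀.card ≤ kk X →
      1 ≤ kk X → 1 ≤ X / pN S₀ →
      ∑ S ∈ (SA X).filter (fun S => S.card ≤ kk X ∧ sm (zz X) S = S₀), w X S ≤
        b * a ^ S₀.card * (kk X : ℝ) ^ c * lgn (pN S₀) * (((X / pN S₀ : ℕ) : ℝ) *
          (lgn (X / pN S₀)) ^ (-κ))) :
    ∀ ε : ℝ, 0 < ε → ∃ X₀ : ℕ, ∀ X : ℕ, X₀ ≤ X →
      ∑ S ∈ (SA X).filter (fun S => S.card ≤ kk X), w X S ≤ ε * X := by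
  intro ε hε
  obtain ⟨C, hC0, hC⟩ := hM
  have hlim : Tendsto (fun l : ℝ => (297 * b * 11 ^ c * Real.exp (a * C)) * Real.exp (-(κ / 2) * l))
      atTop (nhds 0) := by
    have h1 : Tendsto (fun l : ℝ => Real.exp (-(κ / 2) * l)) atTop (nhds 0) := by
      refine Real.tendsto_exp_atBot.comp ?_
      exact tendsto_id.const_mul_atTop_of_neg (by linarith)
    have := h1.const_mul (297 * b * 11 ^ c * Real.exp (a * C))
    rwa [mul_zero] at this
  have hpow : ∀ᶠ l : ℝ in atTop, 33 * l ^ 4 + 3 ≤ Real.exp l := by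
    have h1 := (Real.isLittleO_pow_exp_atTop (n := 4)).bound (show (0:ℝ) < 1 / 66 by norm_num)
    filter_upwards [h1, eventually_ge_atTop (2:ℝ)] with l hl hl2
    rw [Real.norm_of_nonneg (by positivity), Real.norm_of_nonneg (Real.exp_pos _).le] at hl
    have h2 : (16:ℝ) ≤ l ^ 4 := by
      have := pow_le_pow_left₀ (by norm_num : (0:ℝ) ≤ 2) hl2 4
      linarith
    linarith
  have hev := (((eL_tendsto.eventually (log_small (4 + c + 6 * a) (κ / 2) (by linarith))).and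
    (eL_tendsto.eventually (eventually_ge_atTop 2))).and
    (eL_tendsto.eventually (hlim.eventually (gt_mem_nhds hε)))).and (eL_tendsto.eventually hpow)
  obtain ⟨X₀, hX₀⟩ := eventually_atTop.1 hev
  refine ⟨max X₀ 3, fun X hX => ?_⟩
  obtain ⟨⟨⟨k1, k2⟩, k3⟩, k4⟩ := hX₀ X ((le_max_left _ _).trans hX)
  have hX3 : 3 ≤ X := (le_max_right _ _).trans hX
  set ℓ : ℝ := eL X with hℓ
  set z : ℕ := zz X with hz
  set k : ℕ := kk X with hk
  have hl0 : 0 < ℓ := by linarith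
  have hlX : Real.log X = Real.exp ℓ := by
    have := rpow_eq (X := X) k2 1
    rwa [Real.rpow_one, one_mul] at this
  have hX0 : (0 : ℝ) < X := by exact_mod_cast (by omega : 0 < X)
  have hk11 : (k : ℝ) ≤ 11 * ℓ := by
    have h := Nat.ceil_lt_add_one (show (0 : ℝ) ≤ 10 * eL X by rw [← hℓ]; positivity)
    have h' : (k : ℝ) < 10 * ℓ + 1 := h
    linarith
  have hk1 : 1 ≤ k := by
    have h : (10 * ℓ : ℝ) ≤ k := Nat.le_ceil _
    have h' : (1 : ℝ) ≤ k := by linarith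
    exact_mod_cast h'
  have hz3 : 3 ≤ z := zz_ge k2
  have hz0 : (0 : ℝ) < z := by exact_mod_cast (by omega : 0 < z)
  have hzlog : Real.log z ≤ ℓ ^ 3 := by
    rw [Real.log_le_iff_le_exp hz0]
    exact Nat.floor_le (Real.exp_pos _).le
  have hzlog0 : 0 < Real.log z := Real.log_pos (by exact_mod_cast (by omega : 1 < z))
  have hl4 : (1 : ℝ) ≤ ℓ ^ 4 := one_le_pow₀ (by linarith)
  set F := (SA X).filter (fun S => S.card ≤ k) with hFdef
  set W : Finset (Finset RR) := (QB z).powerset.filter fun S => S.card ≤ k with hW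
  have hmaps : ∀ S ∈ F, sm z S ∈ W := by
    intro S hS
    rw [hFdef, mem_filter] at hS
    rw [hW, mem_filter, mem_powerset]
    refine ⟨?_, (card_le_card (filter_subset _ _)).trans hS.2⟩
    intro π hπ
    unfold sm at hπ
    rw [mem_filter] at hπ
    rw [mem_QB]
    exact ⟨hπ.2, (mem_SA hS.1).1 π hπ.1⟩
  have hcard : ∑ S ∈ F, w X S = ∑ S₀ ∈ W, ∑ S ∈ F.filter (fun S => sm z S = S₀), w X S :=
    (sum_fiberwise_of_maps_to hmaps _).symm
  have hone : ∀ S₀ ∈ W, ∑ S ∈ F.filter (fun S => sm z S = S₀), w X S ≤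
      (a ^ S₀.card * (1 / (pN S₀ : ℝ))) * (297 * b * 11 ^ c * ℓ ^ c * ℓ ^ 4 * X *
        Real.exp (-κ * ℓ)) := by
    intro S₀ hS₀
    rw [hW, mem_filter, mem_powerset] at hS₀
    have hpq : ∀ u ∈ S₀, Pq u ∧ nrm u ≤ z := fun u hu => by
      have := hS₀.1 hu
      rw [mem_QB] at this
      exact ⟨this.2, this.1⟩
    set N := pN S₀ with hN
    have hN0 : 0 < N := pN_pos fun u hu => (hpq u hu).1
    have hN0' : (0 : ℝ) < N := by exact_mod_cast hN0
    have hlN : Real.log N ≤ 11 * ℓ ^ 4 := by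
      have e1 : Real.log N = ∑ p ∈ S₀, Real.log (nrm p) := by
        rw [hN]
        unfold pN
        push_cast
        rw [Real.log_prod]
        intro p hp
        have := nrm_ne (pq_ne (hpq p hp).1)
        exact_mod_cast this
      rw [e1]
      calc ∑ p ∈ S₀, Real.log (nrm p) ≤ ∑ _p ∈ S₀, Real.log z := by
            refine sum_le_sum fun p hp => ?_
            exact Real.log_le_log (by exact_mod_cast nrm_pos' (pq_ne (hpq p hp).1))
              (by exact_mod_cast (hpq p hp).2)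
        _ = S₀.card * Real.log z := by rw [sum_const, nsmul_eq_mul]
        _ ≤ (11 * ℓ) * ℓ ^ 3 := by
            refine mul_le_mul (le_trans (by exact_mod_cast hS₀.2) hk11) hzlog hzlog0.le
              (by positivity)
        _ = 11 * ℓ ^ 4 := by ring
    have hlgN : lgn N ≤ 33 * ℓ ^ 4 := by
      rcases Nat.lt_or_ge N 2 with h | h
      · have : N = 1 := by omega
        rw [this]
        have : lgn 1 = 1 := by unfold lgn; simp
        rw [this]
        linarith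
      · have := lgn_le_log h
        linarith
    have hYle : ((X / N : ℕ) : ℝ) ≤ (X : ℝ) / N := Nat.cast_div_le
    have hYge : Real.exp (Real.log X / 3) ≤ ((X / N : ℕ) : ℝ) := by
      have e1 : (X : ℝ) / N < ((X / N : ℕ) : ℝ) + 1 := by
        rw [div_lt_iff₀ hN0']
        have := Nat.lt_mul_div_succ X hN0
        have h' : ((X : ℕ) : ℝ) < ((N * (X / N + 1) : ℕ) : ℝ) := by exact_mod_cast this
        rw [Nat.cast_mul, Nat.cast_add, Nat.cast_one] at h'
        linarith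
      have e2 : Real.exp (Real.log X - Real.log N) = (X : ℝ) / N := by
        rw [Real.exp_sub, Real.exp_log hX0, Real.exp_log hN0']
      have e3 : Real.exp (Real.log X / 3 + 1) ≤ (X : ℝ) / N := by
        rw [← e2]
        apply Real.exp_le_exp.2
        rw [← hlX] at k4
        linarith
      rw [Real.exp_add] at e3
      have e4 : (2 : ℝ) ≤ Real.exp 1 := by have := Real.exp_one_gt_d9; linarith
      have e5 : (1 : ℝ) ≤ Real.exp (Real.log X / 3) := by
        apply Real.one_le_exp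
        rw [hlX]
        positivity
      nlinarith
    have hY1 : 1 ≤ X / N := by
      have : (0:ℝ) < ((X / N : ℕ) : ℝ) := lt_of_lt_of_le (Real.exp_pos _) hYge
      exact_mod_cast this
    have h1 := hcount X S₀ hpq hS₀.2 hk1 hY1
    have hFF : F.filter (fun S => sm z S = S₀) =
        (SA X).filter (fun S => S.card ≤ kk X ∧ sm (zz X) S = S₀) := by
      rw [hFdef, filter_filter]
    rw [hFF]
    refine h1.trans ?_
    have hlgY : Real.exp ℓ / 3 ≤ lgn (X / N) := by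
      refine le_trans ?_ (log_le_lgn hY1)
      rw [← hlX, Real.le_log_iff_exp_le (by exact_mod_cast hY1)]
      exact hYge
    have hrp : (lgn (X / N)) ^ (-κ) ≤ 3 * Real.exp (-κ * ℓ) := by
      have e1 : (lgn (X / N)) ^ (-κ) ≤ (Real.exp ℓ / 3) ^ (-κ) :=
        Real.rpow_le_rpow_of_nonpos (by positivity) hlgY (by linarith)
      refine e1.trans ?_
      rw [Real.div_rpow (Real.exp_pos _).le (by norm_num), ← Real.exp_mul, div_eq_mul_inv,
        ← Real.rpow_neg (by norm_num), neg_neg, mul_comm ℓ, mul_comm]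
      refine mul_le_mul_of_nonneg_right ?_ (Real.exp_pos _).le
      calc (3:ℝ) ^ κ ≤ 3 ^ (1:ℝ) :=
            Real.rpow_le_rpow_of_exponent_le (by norm_num) hκ1
        _ = 3 := Real.rpow_one _
    have hlg0 : 0 ≤ lgn N := (zero_le_one.trans (one_le_lgn N))
    have hrp0 : 0 ≤ (lgn (X / N)) ^ (-κ) :=
      Real.rpow_nonneg (zero_le_one.trans (one_le_lgn _)) _
    have hkc : (k : ℝ) ^ c ≤ (11 * ℓ) ^ c := pow_le_pow_left₀ (Nat.cast_nonneg _) hk11 c
    calc b * a ^ S₀.card * (k : ℝ) ^ c * lgn N * (((X / N : ℕ) : ℝ) * (lgn (X / N)) ^ (-κ))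
        ≤ b * a ^ S₀.card * (11 * ℓ) ^ c * (33 * ℓ ^ 4) *
          (((X : ℝ) / N) * (3 * Real.exp (-κ * ℓ))) := by
          gcongr
      _ ≤ _ := by
          have : b * a ^ S₀.card * (11 * ℓ) ^ c * (33 * ℓ ^ 4) *
            (((X : ℝ) / N) * (3 * Real.exp (-κ * ℓ))) =
            (a ^ S₀.card * (1 / (N : ℝ))) * (99 * b * 11 ^ c * ℓ ^ c * ℓ ^ 4 * X *
              Real.exp (-κ * ℓ)) := by
            rw [mul_pow]
            ring
          rw [this]
          gcongr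
          norm_num
  have hsum : ∑ S ∈ F, w X S ≤ Real.exp (a * ∑ π ∈ QB z, (1 : ℝ) / nrm π) *
      (297 * b * 11 ^ c * ℓ ^ c * ℓ ^ 4 * X * Real.exp (-κ * ℓ)) := by
    rw [hcard]
    refine (sum_le_sum hone).trans ?_
    rw [← sum_mul]
    refine mul_le_mul_of_nonneg_right ?_ (by positivity)
    refine le_trans ?_ (small_sum a ha z)
    refine sum_le_sum_of_subset_of_nonneg (filter_subset _ _) fun S _ _ => by positivity
  have hM : a * ∑ π ∈ QB z, (1 : ℝ) / nrm π ≤ a * C + 6 * a * Real.log ℓ := by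
    have h1 := hC z hz3
    have h2 := loglog_zz k2
    have h3 : ∑ π ∈ QB z, (1 : ℝ) / nrm π ≤ 6 * Real.log ℓ + C := by linarith
    have := mul_le_mul_of_nonneg_left h3 ha
    linarith
  have hl4' : ∀ n : ℕ, ℓ ^ n = Real.exp (n * Real.log ℓ) := by
    intro n
    rw [← Real.log_pow]
    exact (Real.exp_log (by positivity)).symm
  calc ∑ S ∈ F, w X S ≤ Real.exp (a * C + 6 * a * Real.log ℓ) *
        (297 * b * 11 ^ c * ℓ ^ c * ℓ ^ 4 * X * Real.exp (-κ * ℓ)) := by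
        refine hsum.trans ?_
        gcongr
    _ = 297 * b * 11 ^ c * Real.exp (a * C) *
        Real.exp ((4 + c + 6 * a) * Real.log ℓ - κ * ℓ) * X := by
        rw [hl4' c, hl4' 4, Real.exp_add, show (4 + c + 6 * a) * Real.log ℓ - κ * ℓ =
          6 * a * Real.log ℓ + (c * Real.log ℓ + ((4 : ℕ) : ℝ) * Real.log ℓ) + -κ * ℓ by
            push_cast; ring, Real.exp_add, Real.exp_add, Real.exp_add]
        ring
    _ ≤ 297 * b * 11 ^ c * Real.exp (a * C) * Real.exp (-(κ / 2) * ℓ) * X := by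
        gcongr
        linarith
    _ ≤ ε * X := by
        refine mul_le_mul_of_nonneg_right ?_ hX0.le
        exact le_of_lt k3

/-- the large parts are counted by squarefree elements -/
theorem fiberW (X z : ℕ) (S₀ : Finset RR) (hS₀ : ∀ u ∈ S₀, Pq u)
    (F : Finset (Finset RR)) (hF : ∀ S ∈ F, S ∈ SA X ∧ sm z S = S₀) (h : RR → ℝ)
    (hh : ∀ π, 0 ≤ h π) :
    ∑ S ∈ F, ∏ π ∈ la z S, h π ≤ ∑ n ∈ SB (X / pN S₀), mf h n := by
  have hpr : ∀ S ∈ F, (∀ π ∈ S, Pq π) ∧ ∏ π ∈ S, nrm π ≤ X := fun S hS => mem_SA (hF S hS).1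
  refine sum_le_inj (fun S => ∏ π ∈ la z S, π) ?_ ?_ ?_ ?_
  · intro S hS
    obtain ⟨h1, h2⟩ := hpr S hS
    rw [Pool.Agent.R426.QK.mem_SB]
    refine ⟨?_, (PS_prod fun π hπ => h1 π (filter_subset _ _ hπ)).1⟩
    rw [Nat.le_div_iff_mul_le (pN_pos hS₀), nrm_prod, mul_comm]
    have : (∏ π ∈ sm z S, nrm π) * ∏ π ∈ la z S, nrm π = ∏ π ∈ S, nrm π :=
      prod_filter_mul_prod_filter_not _ _ _
    unfold pN
    rw [← (hF S hS).2, this]
    exact h2
  · intro S hS T hT h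
    have e1 := (PS_prod (S := la z S) fun π hπ => (hpr S hS).1 π (filter_subset _ _ hπ)).2
    have e2 := (PS_prod (S := la z T) fun π hπ => (hpr T hT).1 π (filter_subset _ _ hπ)).2
    have e3 : la z S = la z T := by
      rw [← e1, ← e2]
      exact congrArg Pool.Agent.R426.QK.PD h
    have key : ∀ S : Finset RR, sm z S ∪ la z S = S := fun S => filter_union_filter_not_eq _ _
    rw [← key S, ← key T, (hF S hS).2, (hF T hT).2, e3]
  · intro S hS
    refine le_of_eq ?_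
    unfold mf
    rw [(PS_prod (S := la z S) fun π hπ => (hpr S hS).1 π (filter_subset _ _ hπ)).2]
  · intro n _
    exact mf_nonneg hh n

/-- the weight of a character -/
noncomputable def gg (n : RR) (i j : ℕ) (π : RR) : ℝ := (2 + (xr n i j π).re) / 3

lemma gg_ge (n : RR) (i j : ℕ) (π : RR) : 1 / 3 ≤ gg n i j π := g_ge n i j π

lemma gg_le (n : RR) (i j : ℕ) (π : RR) : gg n i j π ≤ 1 := by
  unfold gg
  have h1 := (Complex.re_le_norm _).trans (xr_norm n i j π)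
  linarith

/-- the bound for the averaged weights over a fibre -/
theorem chW {C : ℝ} (hC1 : 1 ≤ C)
    (hC : ∀ (n : RR) (i j : ℕ), PS n → i < 2 → j < 2 → (n ≠ 1 ∨ i ≠ 0 ∨ j ≠ 0) → ∀ T : ℕ,
      ∑ a ∈ SB T, mf (fun π => (2 + (xr n i j π).re) / 3) a ≤
        C * (lgn (nrm n)) ^ (1 / 3 : ℝ) * (T * (lgn T) ^ (-(1 / 3) : ℝ)))
    (X z : ℕ) (S₀ : Finset RR) (hS₀ : ∀ u ∈ S₀, Pq u)
    (F : Finset (Finset RR)) (hF : ∀ S ∈ F, S ∈ SA X ∧ sm z S = S₀)
    (r : ℝ) (hr : 1 ≤ r) (n : RR) (i j : ℕ) (hn : PS n) (hi : i < 2) (hj : j < 2)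
    (hnij : n ≠ 1 ∨ i ≠ 0 ∨ j ≠ 0) (hnn : nrm n ≤ pN S₀) (hT1 : 1 ≤ X / pN S₀) :
    ∑ S ∈ F, ∏ π ∈ la z S, (1 - (1 - gg n i j π) / r) ≤
      16 * C * lgn (pN S₀) * (((X / pN S₀ : ℕ) : ℝ) * (lgn (X / pN S₀)) ^ (-(1 / (9 * r)) : ℝ)) := by
  have hr0 : 0 < r := by linarith
  have hh0 : ∀ π, 0 ≤ 1 - (1 - gg n i j π) / r := by
    intro π
    have h1 := gg_ge n i j π
    have h2 := gg_le n i j π
    have : (1 - gg n i j π) / r ≤ 1 := by
      rw [div_le_one hr0]
      linarith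
    linarith
  refine (fiberW X z S₀ hS₀ F hF _ hh0).trans ?_
  set T := X / pN S₀ with hT
  set θ : ℝ := 1 / (3 * r) with hθ
  have hθ0 : 0 < θ := by rw [hθ]; positivity
  have hθ1 : θ ≤ 1 := by
    rw [hθ, div_le_one (by positivity)]
    linarith
  have h1 : ∀ a ∈ SB T, mf (fun π => 1 - (1 - gg n i j π) / r) a ≤ (mf (gg n i j) a) ^ θ := by
    intro a _
    unfold mf
    rw [← Real.finsetProd_rpow _ _ (fun π _ => by have := gg_ge n i j π; linarith)]
    exact prod_le_prod (fun π _ => hh0 π) fun π _ => h_le hr (gg_ge n i j π) (gg_le n i j π)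
  refine (sum_le_sum h1).trans ?_
  have h2 := sum_rpow_le (SB T) (mf (gg n i j))
    (fun a _ => mf_nonneg (fun π => by have := gg_ge n i j π; linarith) a) hθ0 hθ1
    (card_SB_le hT1) (hC n i j hn hi hj hnij T)
  refine h2.trans ?_
  have hT0 : (0 : ℝ) < T := by exact_mod_cast hT1
  have hl1 := one_le_lgn T
  have hl0 := lgn_pos T
  have hm1 := one_le_lgn (nrm n)
  have hm0 := lgn_pos (nrm n)
  have hC0 : 0 < C := by linarith
  have e1 : (16 * (T : ℝ)) ^ (1 - θ) * (C * lgn (nrm n) ^ (1 / 3 : ℝ) *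
      (T * lgn T ^ (-(1 / 3) : ℝ))) ^ θ =
      16 ^ (1 - θ) * C ^ θ * (lgn (nrm n) ^ (1 / 3 : ℝ)) ^ θ * (T * (lgn T) ^ (-(1 / (9 * r)) : ℝ)) := by
    rw [Real.mul_rpow (by norm_num) hT0.le, Real.mul_rpow (by positivity) (by positivity),
      Real.mul_rpow hC0.le (by positivity), Real.mul_rpow hT0.le (by positivity),
      ← Real.rpow_mul hl0.le (-(1 / 3)) θ]
    have e2 : (T : ℝ) ^ (1 - θ) * (T : ℝ) ^ θ = T := by
      rw [← Real.rpow_add hT0]
      norm_num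
    have e3 : (-(1 / 3) : ℝ) * θ = -(1 / (9 * r)) := by
      rw [hθ]
      field_simp
      norm_num
    rw [e3]
    calc _ = 16 ^ (1 - θ) * C ^ θ * (lgn (nrm n) ^ (1 / 3 : ℝ)) ^ θ *
        (((T : ℝ) ^ (1 - θ) * (T : ℝ) ^ θ) * (lgn T) ^ (-(1 / (9 * r)) : ℝ)) := by ring
      _ = _ := by rw [e2]
  rw [e1]
  have f1 : (16 : ℝ) ^ (1 - θ) ≤ 16 := by
    calc (16 : ℝ) ^ (1 - θ) ≤ 16 ^ (1 : ℝ) :=
          Real.rpow_le_rpow_of_exponent_le (by norm_num) (by linarith)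
      _ = 16 := Real.rpow_one _
  have f2 : C ^ θ ≤ C := by
    calc C ^ θ ≤ C ^ (1 : ℝ) := Real.rpow_le_rpow_of_exponent_le hC1 hθ1
      _ = C := Real.rpow_one _
  have f3 : (lgn (nrm n) ^ (1 / 3 : ℝ)) ^ θ ≤ lgn (pN S₀) := by
    rw [← Real.rpow_mul hm0.le]
    calc lgn (nrm n) ^ (1 / 3 * θ) ≤ lgn (nrm n) ^ (1 : ℝ) :=
          Real.rpow_le_rpow_of_exponent_le hm1 (by linarith)
      _ = lgn (nrm n) := Real.rpow_one _
      _ ≤ lgn (pN S₀) := lgn_mono hnn
  have hp0 : 0 ≤ lgn (pN S₀) := (lgn_pos _).le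
  gcongr

end Pool.Agent.N124.QT
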