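import Pool.Agent.N124.QT.FBB

/-!
Project QT (helper869): degenerate labels are rare for random colourings (helper124), after
`Pool/Agent/R426/QK/FB.lean` (helper806).
-/

set_option autoImplicit false

open scoped Classical

namespace Pool.Agent.N124.QT

open Finset Filter
open Pool.Agent.R426.QK Pool.Agent.R426.QK.FB
open Pool.Agent.Y698 (RR)
open Pool.Agent.Y703.CX (eL zz kk)
open Pool.Agent.Y495.CX.Few (eL_tendsto log_small zz_ge loglog_zz rpow_eq)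
open Pool.Agent.N869.QT (SA NdC S_FBC)
open Pool.Agent.N869.QT.G (pr)

/-- the indices of the characters -/
noncomputable def PP (S₀ : Finset RR) : Finset (Finset RR × ℕ × ℕ) :=
  (S₀.powerset ×ˢ (range 2 ×ˢ range 2)).filter fun p => p.1 ≠ ∅ ∨ p.2.1 ≠ 0 ∨ p.2.2 ≠ 0

lemma card_PP (S₀ : Finset RR) : ((PP S₀).card : ℝ) ≤ 4 * 2 ^ S₀.card := by
  have : (PP S₀).card ≤ 2 ^ S₀.card * (2 * 2) := by
    refine (card_filter_le _ _).trans (le_of_eq ?_)
    rw [card_product, card_product, card_powerset, card_range]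
  have h' : ((PP S₀).card : ℝ) ≤ ((2 ^ S₀.card * (2 * 2) : ℕ) : ℝ) := by exact_mod_cast this
  refine h'.trans (le_of_eq ?_)
  push_cast
  ring

/-- the weight with index `p` -/
noncomputable def gp (p : Finset RR × ℕ × ℕ) (π : RR) : ℝ := gg (∏ u ∈ p.1, u) p.2.1 p.2.2 π

lemma gp_ge (p : Finset RR × ℕ × ℕ) (π : RR) : 1 / 3 ≤ gp p π := gg_ge _ _ _ _

/-- the pointwise bound -/
theorem ptw (hR : RecP) {Q : Type} [Fintype Q] (K : ℕ) (S₀ T : Finset RR) (hS₀ : ∀ u ∈ S₀, Pq u)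
    (hT : ∀ π ∈ T, Pq π ∧ π ∉ S₀) (γ : RR → Q) (M : ℝ)
    (hM : (3 : ℝ) ^ (K * (S₀.card + Nat.log 2 T.card + 1)) ≤ M) (h : ¬ NdC K γ S₀ T) :
    1 ≤ ∑ q : Q, (∑ p ∈ PP S₀, ∏ π ∈ T.filter (fun π => γ π = q), gp p π +
      M * ∏ π ∈ T.filter (fun π => γ π = q), gg 1 0 1 π) := by
  have hg0 : ∀ (n : RR) (i j : ℕ) (π : RR), 0 ≤ gg n i j π := fun n i j π => by
    have := gg_ge n i j π
    linarith
  have hp0 : ∀ (p : Finset RR × ℕ × ℕ) (π : RR), 0 ≤ gp p π := fun p π => by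
    have := gp_ge p π
    linarith
  have hM0 : 0 ≤ M := le_trans (by positivity) hM
  have hterm : ∀ q : Q, 0 ≤ ∑ p ∈ PP S₀, ∏ π ∈ T.filter (fun π => γ π = q),
      gp p π + M * ∏ π ∈ T.filter (fun π => γ π = q), gg 1 0 1 π := by
    intro q
    have h1 : 0 ≤ ∑ p ∈ PP S₀, ∏ π ∈ T.filter (fun π => γ π = q),
        gp p π := sum_nonneg fun p _ => prod_nonneg fun π _ => hp0 _ _
    have h2 : 0 ≤ M * ∏ π ∈ T.filter (fun π => γ π = q), gg 1 0 1 π :=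
      mul_nonneg hM0 (prod_nonneg fun π _ => hg0 _ _ _ _)
    linarith
  unfold NdC at h
  push Not at h
  obtain ⟨q, hq⟩ := h
  refine le_trans ?_ (single_le_sum (fun q _ => hterm q) (mem_univ q))
  by_cases hN : Nd S₀ (T.filter fun π => γ π = q)
  · have hlt := hq hN
    have h1 : 0 ≤ ∑ p ∈ PP S₀, ∏ π ∈ T.filter (fun π => γ π = q),
        gp p π := sum_nonneg fun p _ => prod_nonneg fun π _ => hp0 _ _
    set m := K * (S₀.card + Nat.log 2 T.card + 1) with hm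
    have h2 : (1 / 3 : ℝ) ^ m ≤ ∏ π ∈ T.filter (fun π => γ π = q), gg 1 0 1 π := by
      have e1 : ∏ π ∈ T.filter (fun π => γ π = q), gg 1 0 1 π =
          ∏ π ∈ T.filter (fun π => γ π = q ∧ tt π = 1), gg 1 0 1 π := by
        rw [← filter_filter, prod_filter (s := T.filter fun π => γ π = q)]
        refine prod_congr rfl fun π hπ => ?_
        by_cases htt : tt π = 1
        · rw [if_pos htt]
        · rw [if_neg htt]
          have h0 : tt π = 0 := by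
            have key : ∀ c : ZMod 2, c ≠ 1 → c = 0 := by decide
            exact key _ htt
          have h1 := xr_ez (A := ∅) (fun u hu => absurd hu (Finset.notMem_empty u))
            (i := 0) (j := 1) (by norm_num) (by norm_num) (hT π (mem_filter.1 hπ).1).1
            (Finset.notMem_empty π)
          rw [prod_empty, sum_empty, h0] at h1
          have h2 : ((0 : ZMod 2) + ((0 : ℕ) : ZMod 2) * ss π + ((1 : ℕ) : ZMod 2) * 0) = 0 := by
            rw [Nat.cast_zero, zero_mul, mul_zero, add_zero, add_zero]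
          rw [h2, Pool.Agent.R426.QK.ez_zero] at h1
          unfold gg
          rw [h1]
          norm_num
      rw [e1]
      calc ((1 : ℝ) / 3) ^ m ≤ (1 / 3) ^ (T.filter (fun π => γ π = q ∧ tt π = 1)).card :=
            pow_le_pow_of_le_one (by norm_num) (by norm_num) hlt.le
        _ = ∏ _π ∈ T.filter (fun π => γ π = q ∧ tt π = 1), ((1 : ℝ) / 3) := by rw [prod_const]
        _ ≤ ∏ π ∈ T.filter (fun π => γ π = q ∧ tt π = 1), gg 1 0 1 π :=
            prod_le_prod (fun _ _ => by norm_num) fun π _ => gg_ge 1 0 1 π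
    have h3 : (3 : ℝ) ^ m * (1 / 3) ^ m = 1 := by
      rw [← mul_pow]
      norm_num
    have h4 : (3 : ℝ) ^ m * (1 / 3) ^ m ≤ M * ∏ π ∈ T.filter (fun π => γ π = q), gg 1 0 1 π := by
      gcongr
    linarith
  · obtain ⟨A, i, j, hA, hi, hj, hAij, hDg⟩ := notNd hR hS₀
      (fun π hπ => hT π (mem_filter.1 hπ).1) hN
    have hp : ((A, i, j) : Finset RR × ℕ × ℕ) ∈ PP S₀ := by
      unfold PP
      rw [mem_filter, mem_product, mem_product, mem_powerset, mem_range, mem_range]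
      exact ⟨⟨hA, hi, hj⟩, hAij⟩
    have h1 : ∏ π ∈ T.filter (fun π => γ π = q), gp (A, i, j) π = 1 := by
      refine prod_eq_one fun π hπ => ?_
      have hπ' := hT π (mem_filter.1 hπ).1
      unfold gp gg
      rw [xr_ez (fun u hu => hS₀ u (hA hu)) hi hj hπ'.1 (fun h => hπ'.2 (hA h)), hDg π hπ, Pool.Agent.R426.QK.ez_zero]
      norm_num
    have h2 : 1 ≤ ∑ p ∈ PP S₀, ∏ π ∈ T.filter (fun π => γ π = q),
        gp p π := by
      have h5 := single_le_sum (f := fun p : Finset RR × ℕ × ℕ =>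
        ∏ π ∈ T.filter (fun π => γ π = q), gp p π)
        (fun p _ => prod_nonneg fun π _ => hp0 _ _) hp
      beta_reduce at h5
      rw [h1] at h5
      exact h5
    have h3 : 0 ≤ M * ∏ π ∈ T.filter (fun π => γ π = q), gg 1 0 1 π :=
      mul_nonneg hM0 (prod_nonneg fun π _ => hg0 _ _ _ _)
    linarith

/-- powers of three -/
lemma three_pow_le {k t : ℕ} (K s : ℕ) (ht : t ≤ k) (hk : 1 ≤ k) :
    (3 : ℝ) ^ (K * (s + Nat.log 2 t + 1)) ≤ 3 ^ K * (3 ^ K) ^ s * (k : ℝ) ^ (2 * K) := by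
  have h1 : (3 : ℝ) ^ (K * (s + Nat.log 2 t + 1)) =
      3 ^ K * (3 ^ K) ^ s * ((3 : ℝ) ^ Nat.log 2 t) ^ K := by
    rw [← pow_mul, ← pow_mul, ← pow_add, ← pow_add]
    congr 1
    ring
  rw [h1]
  have h2 : (3 : ℝ) ^ Nat.log 2 t ≤ (k : ℝ) ^ 2 := by
    have h3 : Nat.log 2 t ≤ Nat.log 2 k := Nat.log_mono_right ht
    have h4 : 2 ^ Nat.log 2 k ≤ k := Nat.pow_log_le_self 2 (by omega)
    have h5 : ((2 : ℝ) ^ Nat.log 2 k) ≤ k := by exact_mod_cast h4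
    calc (3 : ℝ) ^ Nat.log 2 t ≤ 3 ^ Nat.log 2 k := pow_le_pow_right₀ (by norm_num) h3
      _ ≤ 4 ^ Nat.log 2 k := pow_le_pow_left₀ (by norm_num) (by norm_num) _
      _ = ((2 : ℝ) ^ Nat.log 2 k) ^ 2 := by
          rw [← pow_mul, mul_comm, pow_mul]
          norm_num
      _ ≤ (k : ℝ) ^ 2 := by gcongr
  calc 3 ^ K * (3 ^ K) ^ s * ((3 : ℝ) ^ Nat.log 2 t) ^ K ≤
      3 ^ K * (3 ^ K) ^ s * ((k : ℝ) ^ 2) ^ K := by gcongr
    _ = 3 ^ K * (3 ^ K) ^ s * (k : ℝ) ^ (2 * K) := by rw [pow_mul (k : ℝ) 2 K]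

/-- the count over a fibre -/
theorem fibC (hR : RecP) {C : ℝ} (hC1 : 1 ≤ C)
    (hC : ∀ (n : RR) (i j : ℕ), PS n → i < 2 → j < 2 → (n ≠ 1 ∨ i ≠ 0 ∨ j ≠ 0) → ∀ T : ℕ,
      ∑ a ∈ SB T, mf (fun π => (2 + (xr n i j π).re) / 3) a ≤
        C * (lgn (nrm n)) ^ (1 / 3 : ℝ) * (T * (lgn T) ^ (-(1 / 3) : ℝ)))
    (Q : Type) [Fintype Q] [Nonempty Q] (K : ℕ)
    (X : ℕ) (S₀ : Finset RR) (hS₀ : ∀ u ∈ S₀, Pq u ∧ nrm u ≤ zz X)
    (hk : 1 ≤ kk X) (hT1 : 1 ≤ X / pN S₀) :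
    ∑ S ∈ (SA X).filter (fun S => S.card ≤ kk X ∧ sm (zz X) S = S₀),
      pr S (fun γ : RR → Q => ¬ NdC K γ (sm (zz X) S) (la (zz X) S)) ≤
      (Fintype.card Q * (4 + 3 ^ K) * (16 * C)) * (2 * 3 ^ K) ^ S₀.card * (kk X : ℝ) ^ (2 * K) *
        lgn (pN S₀) * (((X / pN S₀ : ℕ) : ℝ) *
          (lgn (X / pN S₀)) ^ (-(1 / (9 * (Fintype.card Q : ℝ))) : ℝ)) := by
  set F := (SA X).filter (fun S => S.card ≤ kk X ∧ sm (zz X) S = S₀) with hFdef
  set r : ℝ := (Fintype.card Q : ℝ) with hr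
  have hr0 : 0 < r := card_pos' (Q := Q)
  have hr1 : 1 ≤ r := by
    rw [hr]
    exact_mod_cast Fintype.card_pos (α := Q)
  set M : ℝ := 3 ^ K * (3 ^ K) ^ S₀.card * (kk X : ℝ) ^ (2 * K) with hMdef
  have hM0 : 0 ≤ M := by positivity
  have hF : ∀ S ∈ F, S ∈ SA X ∧ sm (zz X) S = S₀ := fun S hS => by
    rw [hFdef, mem_filter] at hS
    exact ⟨hS.1, hS.2.2⟩
  -- the pointwise bound and the averages
  have h1 : ∀ S ∈ F, pr S (fun γ : RR → Q => ¬ NdC K γ (sm (zz X) S) (la (zz X) S)) ≤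
      r * (∑ p ∈ PP S₀, ∏ π ∈ la (zz X) S, (1 - (1 - gp p π) / r) +
        M * ∏ π ∈ la (zz X) S, (1 - (1 - gg 1 0 1 π) / r)) := by
    intro S hS
    have hS' := hS
    rw [hFdef, mem_filter] at hS'
    obtain ⟨hSA, hSk, hSm⟩ := hS'
    have hT : ∀ π ∈ la (zz X) S, Pq π ∧ π ∉ S₀ := by
      intro π hπ
      unfold la at hπ
      rw [mem_filter] at hπ
      exact ⟨(mem_SA hSA).1 π hπ.1, fun h => hπ.2 (hS₀ π h).2⟩
    have hMM : (3 : ℝ) ^ (K * (S₀.card + Nat.log 2 (la (zz X) S).card + 1)) ≤ M :=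
      three_pow_le K S₀.card ((card_le_card (filter_subset _ _)).trans hSk) hk
    have hg0 : ∀ (n : RR) (i j : ℕ) (π : RR), 0 ≤ gg n i j π := fun n i j π => by
      have := gg_ge n i j π
      linarith
    have hp0 : ∀ (p : Finset RR × ℕ × ℕ) (π : RR), 0 ≤ gp p π := fun p π => by
      have := gp_ge p π
      linarith
    have h2 := pr_le_av S (fun γ : RR → Q => ¬ NdC K γ (sm (zz X) S) (la (zz X) S))
      (fun γ => ∑ q : Q, (∑ p ∈ PP S₀, ∏ π ∈ (la (zz X) S).filter (fun π => γ π = q),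
        gp p π +
        M * ∏ π ∈ (la (zz X) S).filter (fun π => γ π = q), gg 1 0 1 π))
      (fun γ => sum_nonneg fun q _ => add_nonneg
        (sum_nonneg fun p _ => prod_nonneg fun π _ => hp0 _ _)
        (mul_nonneg hM0 (prod_nonneg fun π _ => hg0 _ _ _ _)))
      (fun γ hγ => by
        rw [hSm] at hγ
        exact ptw hR K S₀ _ (fun u hu => (hS₀ u hu).1) hT γ M hMM hγ)
    refine h2.trans (le_of_eq ?_)
    rw [av_sum]
    have h3 : ∀ q : Q, av S (fun γ => ∑ p ∈ PP S₀, ∏ π ∈ (la (zz X) S).filter (fun π => γ π = q),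
        gp p π +
        M * ∏ π ∈ (la (zz X) S).filter (fun π => γ π = q), gg 1 0 1 π) =
        ∑ p ∈ PP S₀, ∏ π ∈ la (zz X) S, (1 - (1 - gp p π) / r) +
        M * ∏ π ∈ la (zz X) S, (1 - (1 - gg 1 0 1 π) / r) := by
      intro q
      have h5 : ∀ g : RR → ℝ, av S (fun γ => ∏ π ∈ (la (zz X) S).filter (fun π => γ π = q), g π) =
          ∏ π ∈ la (zz X) S, (1 - (1 - g π) / r) :=
        fun g => av_prod S _ (filter_subset _ _) q g
      rw [av_add, av_sum, av_mul, h5, sum_congr rfl fun p _ => h5 (gp p)]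
    rw [sum_congr rfl fun q _ => h3 q, sum_const, card_univ, nsmul_eq_mul]
  refine (sum_le_sum h1).trans ?_
  rw [← mul_sum, sum_add_distrib, sum_comm, ← mul_sum]
  set B : ℝ := 16 * C * lgn (pN S₀) * (((X / pN S₀ : ℕ) : ℝ) *
    (lgn (X / pN S₀)) ^ (-(1 / (9 * r)) : ℝ)) with hB
  have hS₀' : ∀ u ∈ S₀, Pq u := fun u hu => (hS₀ u hu).1
  have hN1 : 1 ≤ pN S₀ := pN_pos hS₀'
  have h4 : ∀ p ∈ PP S₀, ∑ S ∈ F, ∏ π ∈ la (zz X) S,
      (1 - (1 - gp p π) / r) ≤ B := by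
    intro p hp
    unfold PP at hp
    rw [mem_filter, mem_product, mem_product, mem_powerset, mem_range, mem_range] at hp
    obtain ⟨⟨hA, hi, hj⟩, hAij⟩ := hp
    obtain ⟨a1, a2⟩ := PS_prod (S := p.1) fun π hπ => (hS₀ π (hA hπ)).1
    refine chW hC1 hC X (zz X) S₀ hS₀' F hF r hr1 _ _ _ a1 hi hj ?_ ?_ hT1
    · rcases hAij with h | h
      · left
        intro h1
        apply h
        rw [← a2, h1, PD_one]
      · exact Or.inr h
    · rw [nrm_prod]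
      unfold pN
      refine prod_le_prod_of_subset_of_one_le' hA fun u hu _ => ?_
      exact nrm_pos' (pq_ne (hS₀ u hu).1)
  have h5 : ∑ S ∈ F, ∏ π ∈ la (zz X) S, (1 - (1 - gg 1 0 1 π) / r) ≤ B :=
    chW hC1 hC X (zz X) S₀ hS₀' F hF r hr1 1 0 1 PS_one (by norm_num) (by norm_num)
      (Or.inr (Or.inr one_ne_zero)) (by rw [nrm_one]; exact hN1) hT1
  have hB0 : 0 ≤ B := by
    have h1 := lgn_pos (pN S₀)
    have h2 := lgn_pos (X / pN S₀)
    have hC0 : 0 < C := by linarith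
    rw [hB]
    positivity
  have h6 : ∑ p ∈ PP S₀, ∑ S ∈ F, ∏ π ∈ la (zz X) S,
      (1 - (1 - gp p π) / r) ≤ 4 * 2 ^ S₀.card * B := by
    refine (sum_le_sum h4).trans ?_
    rw [sum_const, nsmul_eq_mul]
    exact mul_le_mul_of_nonneg_right (card_PP S₀) hB0
  have h7 : M * ∑ S ∈ F, ∏ π ∈ la (zz X) S, (1 - (1 - gg 1 0 1 π) / r) ≤ M * B :=
    mul_le_mul_of_nonneg_left h5 hM0
  have hk1 : (1 : ℝ) ≤ (kk X : ℝ) ^ (2 * K) := one_le_pow₀ (by exact_mod_cast hk)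
  have h3K : (1 : ℝ) ≤ 3 ^ K := one_le_pow₀ (by norm_num)
  have h8 : (4 : ℝ) * 2 ^ S₀.card ≤ 4 * (2 * 3 ^ K) ^ S₀.card * (kk X : ℝ) ^ (2 * K) := by
    have e1 : (2 : ℝ) ^ S₀.card ≤ (2 * 3 ^ K) ^ S₀.card :=
      pow_le_pow_left₀ (by norm_num) (by linarith) _
    have e2 : (0 : ℝ) ≤ (2 * 3 ^ K) ^ S₀.card := by positivity
    nlinarith
  have h9 : M ≤ 3 ^ K * (2 * 3 ^ K) ^ S₀.card * (kk X : ℝ) ^ (2 * K) := by
    rw [hMdef]
    gcongr
    linarith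
  have h10 : 4 * 2 ^ S₀.card * B + M * B ≤
      (4 + 3 ^ K) * (2 * 3 ^ K) ^ S₀.card * (kk X : ℝ) ^ (2 * K) * B := by
    have e1 : 4 * 2 ^ S₀.card + M ≤ (4 + 3 ^ K) * (2 * 3 ^ K) ^ S₀.card * (kk X : ℝ) ^ (2 * K) := by
      have : (4 + 3 ^ K) * (2 * 3 ^ K) ^ S₀.card * (kk X : ℝ) ^ (2 * K) =
        4 * (2 * 3 ^ K) ^ S₀.card * (kk X : ℝ) ^ (2 * K) +
        3 ^ K * (2 * 3 ^ K) ^ S₀.card * (kk X : ℝ) ^ (2 * K) := by ring
      rw [this]
      exact add_le_add h8 h9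
    calc 4 * 2 ^ S₀.card * B + M * B = (4 * 2 ^ S₀.card + M) * B := by ring
      _ ≤ _ := mul_le_mul_of_nonneg_right e1 hB0
  calc r * (∑ p ∈ PP S₀, ∑ S ∈ F, ∏ π ∈ la (zz X) S,
      (1 - (1 - gp p π) / r) +
      M * ∑ S ∈ F, ∏ π ∈ la (zz X) S, (1 - (1 - gg 1 0 1 π) / r)) ≤
      r * (4 * 2 ^ S₀.card * B + M * B) :=
        mul_le_mul_of_nonneg_left (add_le_add h6 h7) hr0.le
    _ ≤ r * ((4 + 3 ^ K) * (2 * 3 ^ K) ^ S₀.card * (kk X : ℝ) ^ (2 * K) * B) :=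
        mul_le_mul_of_nonneg_left h10 hr0.le
    _ = _ := by rw [hB]; ring

theorem t_FBC : S_FBC := by
  rintro hR ⟨C, hC1, hC⟩ hM Q _ _ K ε hε
  have hr0 : (0 : ℝ) < Fintype.card Q := card_pos'
  have hr1 : (1 : ℝ) ≤ Fintype.card Q := by exact_mod_cast Fintype.card_pos (α := Q)
  refine genW hM (2 * 3 ^ K) (Fintype.card Q * (4 + 3 ^ K) * (16 * C)) (1 / (9 * Fintype.card Q))
    (2 * K) (by positivity) (by positivity) (by positivity)
    (by rw [div_le_one (by positivity)]; linarith)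
    (fun X S => pr S (fun γ : RR → Q => ¬ NdC K γ (sm (zz X) S) (la (zz X) S)))
    (fun X S₀ hS₀ _ hk hT1 => fibC hR hC1 hC Q K X S₀ hS₀ hk hT1) ε hε

end Pool.Agent.N124.QT
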